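import Pool.Agent.Q96.ID.Stm

/-! # Project ID (helper96), job ENOUGH (helper182): enough injectives -/

set_option autoImplicit false

namespace Q182.ID.ENOUGH

open Q96.ID

section

variable (𝕜 : Type) [RCLike 𝕜] (X : Type) [NormedAddCommGroup X] [NormedSpace 𝕜 X]

/-- the unit ball of the dual -/
abbrev Gam : Type := {φ : X →L[𝕜] 𝕜 // ‖φ‖ ≤ 1}

variable {𝕜 X}

theorem bd (x : X) (φ : Gam 𝕜 X) : ‖φ.1 x‖ ≤ ‖x‖ := by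
  refine (φ.1.le_opNorm x).trans ?_
  have h := mul_le_mul_of_nonneg_right φ.2 (norm_nonneg x)
  rwa [one_mul] at h

theorem mem (x : X) : Memℓp (fun φ : Gam 𝕜 X => φ.1 x) ⊤ := by
  refine memℓp_infty ⟨‖x‖, ?_⟩
  rintro _ ⟨φ, rfl⟩
  exact bd x φ

variable (𝕜 X)

/-- the embedding into `ℓ_∞` -/
noncomputable def emb0 : X →ₗ[𝕜] Linf 𝕜 (Gam 𝕜 X) where
  toFun x := ⟨fun φ => φ.1 x, mem x⟩
  map_add' x y := by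
    ext φ
    exact map_add φ.1 x y
  map_smul' c x := by
    ext φ
    exact map_smul φ.1 c x

/-- the embedding into `ℓ_∞` -/
noncomputable def emb : X →L[𝕜] Linf 𝕜 (Gam 𝕜 X) :=
  (emb0 𝕜 X).mkContinuous 1 (fun x => by
    rw [one_mul]
    exact lp.norm_le_of_forall_le (norm_nonneg x) (fun φ => bd x φ))

theorem emb_apply (x : X) (φ : Gam 𝕜 X) : (emb 𝕜 X x : Linf 𝕜 (Gam 𝕜 X)) φ = φ.1 x := rfl

theorem emb_norm (x : X) : ‖x‖ ≤ 1 * ‖emb 𝕜 X x‖ := by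
  obtain ⟨g, hg, hgx⟩ := exists_dual_vector'' 𝕜 x
  have h1 : ‖(emb 𝕜 X x : Linf 𝕜 (Gam 𝕜 X)) ⟨g, hg⟩‖ ≤ ‖emb 𝕜 X x‖ :=
    lp.norm_apply_le_norm ENNReal.top_ne_zero (emb 𝕜 X x) ⟨g, hg⟩
  rw [emb_apply] at h1
  have h2 : ‖g x‖ = ‖x‖ := by
    rw [hgx, RCLike.norm_ofReal, abs_norm]
  rw [one_mul, ← h2]
  exact h1

end

theorem t_ENOUGH (h1 : S_LINF) (h2 : S_QUOT) : S_ENOUGH := by
  intro 𝕜 _ X _ _ _
  obtain ⟨Q, a, b, c, q, hq⟩ := (h2 𝕜 (Linf 𝕜 (Gam 𝕜 X))).2 X (emb 𝕜 X) 1 (emb_norm 𝕜 X)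
  exact ⟨Linf 𝕜 (Gam 𝕜 X), Q, inferInstance, inferInstance, inferInstance, a, b, c, emb 𝕜 X, q,
    h1 𝕜 (Gam 𝕜 X), hq⟩

end Q182.ID.ENOUGH
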